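import Pool.Agent.W39.LE.PF

set_option autoImplicit false

namespace Pool.W39.LE.PC

open Pool.W39.LE Rg

/-- gain 0.110 -/
def F11 : R4 := FF 100 vy A1 A1 (pcst 1) (mul (fc 0) (fc 2085)) (mul (fc 465) (fc 1510)) (pcst 1) (pcst 1) (cy [8, 304, -312])

set_option maxRecDepth 100000 in
theorem ok11 : ok4 [(0, 1, 2), (1, 2, 2)] F11 = true := by decide +kernel

end Pool.W39.LE.PC
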