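import Pool.Agent.W39.LE.PF

set_option autoImplicit false

namespace Pool.W39.LE.PC

open Pool.W39.LE Rg

/-- gain 0.079 -/
def F13 : R4 := FF 100 vy A1 B3 (pcst 1) (mul (fc 0) (fc 2616)) (mul (fc 350) (fc 2187)) (pcst 1) (pcst 1) (cy [9, 264, -202, -71])

set_option maxRecDepth 100000 in
theorem ok13 : ok4 [(0, 1, 8), (1, 2, 8), (1, 2, 4), (1, 2, 2)] F13 = true := by decide +kernel

end Pool.W39.LE.PC
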