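import Pool.Agent.W39.LE.PF

set_option autoImplicit false

namespace Pool.W39.LE.PC

open Pool.W39.LE Rg

/-- gain 0.064 -/
def F33 : R4 := FF 100 vy A3 B3 (pcst 1) (mul (mul (fc 0) (fc 1133)) (fc 2450)) (mul (mul (fc 275) (fc 1438)) (fc 1806)) (pcst 1) (pcst 1) (cy [4, 340, -344])

set_option maxRecDepth 100000 in
theorem ok33 : ok4 [(0, 1, 4), (1, 2, 4), (1, 2, 2)] F33 = true := by decide +kernel

end Pool.W39.LE.PC
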