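import Pool.Agent.W39.LE.PF

set_option autoImplicit false

namespace Pool.W39.LE.PC

open Pool.W39.LE Rg

/-- gain 0.089 -/
def Feo : R4 := FF 100 vy A2 B1 (pcst 1) (mul (fc 190) (fc 2655)) (mul (fc 554) (fc 2202)) (pcst 1) (pcst 1) (cy [10, 243, -213])

set_option maxRecDepth 100000 in
theorem okeo : ok4 [(0, 1, 8), (1, 2, 8), (1, 2, 4), (1, 2, 2)] Feo = true := by decide +kernel

end Pool.W39.LE.PC
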