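import Pool.Agent.W39.LE.PF

set_option autoImplicit false

namespace Pool.W39.LE.PC

open Pool.W39.LE Rg

/-- gain 0.235 -/
def F11D : R4 := FF 100 vy A1 A1 (add (pcst 2) ve) (mul (fc 0) (fc 3300)) (mul (fc 530) (fc 3490)) (fe 3270) (fe 2315) (cy [15, 166, -181])

set_option maxRecDepth 100000 in
theorem ok11D : ok4 [(0, 1, 4), (1, 2, 4), (1, 2, 2)] F11D = true := by decide +kernel

end Pool.W39.LE.PC
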