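import Pool.Agent.W39.LE.PF

set_option autoImplicit false

namespace Pool.W39.LE.PC

open Pool.W39.LE Rg

/-- gain 0.180 -/
def F33D : R4 := FF 100 vy A3 B3 (add (pcst 2) ve) (mul (fc 0) (fc 1037)) (mul (fc 287) (fc 1430)) (fe 3241) (fe 2381) (cy [9, 220, -229])

set_option maxRecDepth 100000 in
theorem ok33D : ok4 [(0, 1, 2), (1, 2, 2)] F33D = true := by decide +kernel

end Pool.W39.LE.PC
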