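import Pool.Agent.W39.LE.PF

set_option autoImplicit false

namespace Pool.W39.LE.PC

open Pool.W39.LE Rg

/-- gain 0.255 -/
def FeeD : R4 := FF 100 vy A2 B2 (add (pcst 2) ve) (mul (fc 71) (fc 695)) (mul (fc 143) (fc 1262)) (fe 3173) (fe 2279) (cy [14, 173, -160])

set_option maxRecDepth 100000 in
theorem okeeD : ok4 [(0, 1, 2), (2, 3, 4), (3, 4, 4)] FeeD = true := by decide +kernel

end Pool.W39.LE.PC
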